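import Pool.Agent.Run7.h302.PG.Main

/-!
MP_64ff02_ag, Q1: entire curves, and holomorphic maps from the punctured disc, to quasi-projective
varieties, whose homogeneous coordinates are polynomials in power series with Hadamard gaps.
-/

set_option autoImplicit false

namespace Pool.Agent.Results.MP_64ff02_ag.GapSeriesGGL

open MvPolynomial Metric Set Filter Topology FF
open Pool.Agent.W602.GT Pool.Agent.TH143 Pool.Agent.TH143.GT Pool.Agent.W603.BP
  Pool.Agent.W603.BPR Pool.Agent.W603.GR Pool.Agent.W603.PV
open Pool.Agent.TH600.LC (GapRing GapOver)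
open Run7.h302.PG (EntIn PunIn OrdIn SubKod A1Fam)

/-- Let `X` be the quasi-projective variety with the homogeneous ideal `p` and the boundary `Q = 0`,
where `Q` is a form of degree `q`. Let `z₀` be a complex number and `GapRing z₀` the ring generated
by the entire functions with Hadamard gaps at `z₀`. We consider the entire curves in `X` with
homogeneous coordinates without common zeros in `GapRing z₀` (`EntIn`), and the holomorphic maps
from the punctured disc to `X` with homogeneous coordinates `h (1 / w)` without common zeros, the
coordinates of `h` in `GapRing z₀` (`PunIn`).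

(1) Suppose that all closed subvarieties of positive dimension of `X` which are not contained in
`G = 0` have nonnegative logarithmic Kodaira dimension (`SubKod`); this is the case if they are of
log general type. Then such maps from the punctured disc extend unless the image is contained in
`G = 0`, and such entire curves are contained in `G = 0`.

(2) Let `K` be the function field and `y` the generic point of `X`. If there is a Zariski-dense
entire curve of this kind, or a Zariski-dense map of this kind from the punctured disc which does not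
extend, then `X` is covered by affine lines (`A1Fam`: there is a nonconstant family of morphisms from
the affine line to `X`, dominating `X`), and all pluricanonical forms with logarithmic poles along
the boundary vanish. In particular `X` is not of log general type.

(3) Let `q > 0`, and consider the entire curves in `X` which have homogeneous coordinates without
common zeros in the larger ring generated by the entire functions with Hadamard gaps at `z₀` and all
entire functions which satisfy linear differential equations with polynomial coefficients, such that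
the value of `Q` along the curve has finite order (`OrdIn`). If the closed subvarieties of positive
dimension of `X` which are not contained in `G = 0` are of log general type, then these curves are
contained in `G = 0`. If `X` is of log general type, then they are not Zariski-dense. -/
theorem result {n : ℕ} (p : Ideal (MvPolynomial (Fin (n + 1)) ℂ)) (hp : IsHomog p)
    (Q : MvPolynomial (Fin (n + 1)) ℂ) (q : ℕ) (hQ : Q.IsHomogeneous q) (z₀ : ℂ) :
    (∀ G : MvPolynomial (Fin (n + 1)) ℂ, IsForm G → SubKod p Q q G →
      (∀ f, PCurve p Q f → PunIn (GapRing z₀) f → (∃ z ∈ ball (0 : ℂ) 1 \ {0}, eval (f z) G ≠ 0) →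
        Extends f) ∧
      ∀ f, EntireCurve p Q f → EntIn (GapRing z₀) f → ∀ z, eval (f z) G = 0) ∧
    (∀ G : MvPolynomial (Fin (n + 1)) ℂ, SubLogGT p Q q G → SubKod p Q q G) ∧
    (∀ (K : Type) [Field K] [Algebra ℂ K] (w : ℕ) (y : Fin (n + 1) → K), FunField p Q K w y →
      ((∃ f, EntireCurve p Q f ∧ EntIn (GapRing z₀) f ∧ ZDense p f univ) ∨
        (∃ f, PCurve p Q f ∧ PunIn (GapRing z₀) f ∧ ZDense p f (ball 0 1 \ {0}) ∧ ¬ Extends f) →
      A1Fam y Q ∧ (∀ N, 0 < N → ∀ ω : (Fin w → Derivation ℂ K K) → K,
        LogSec ℂ K w N (OffQ Q q y) ω → ω = 0) ∧ ¬ LogGeneralType ℂ K w (OffQ Q q y))) ∧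
    (0 < q →
      (∀ G : MvPolynomial (Fin (n + 1)) ℂ, IsForm G → SubLogGT p Q q G →
        ∀ f, EntireCurve p Q f → OrdIn (GapOver {u | Differentiable ℂ u ∧ PolODE u} z₀) Q f →
          ∀ z, eval (f z) G = 0) ∧
      (∀ (K : Type) [Field K] [Algebra ℂ K] (w : ℕ) (y : Fin (n + 1) → K), FunField p Q K w y →
        LogGeneralType ℂ K w (OffQ Q q y) →
        ∀ f, EntireCurve p Q f → OrdIn (GapOver {u | Differentiable ℂ u ∧ PolODE u} z₀) Q f →
          ¬ ZDense p f univ)) := by
  refine ⟨fun G hG h => ⟨fun f hf hr hfG => Run7.h302.PG.kod_picard hp hQ hG h hf hr hfG,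
    fun f hf hr z => Run7.h302.PG.kod_brody hp hQ hG h hf hr z⟩,
    fun G h K _ _ w y hw hs hy => Run7.h302.PG.logSec_of_gt (h K w y hw hs hy), ?_,
    fun hq => ⟨fun G hG h f hf hr z => Run7.h302.PG.ord_brody hp hQ hq hG h hf hr z, ?_⟩⟩
  · intro K _ _ w y hy hcase
    have key : A1Fam y Q ∧ ∀ N, 0 < N → ∀ ω : (Fin w → Derivation ℂ K K) → K,
        LogSec ℂ K w N (OffQ Q q y) ω → ω = 0 := by
      rcases hcase with ⟨f, hf, hr, hd⟩ | ⟨f, hf, hr, hd, hext⟩
      · have hgp : GenPt f univ K w y := hy.genPt (fun z _ => (hf.2.1 z).2.1) hd
        have h1 := Run7.h302.PG.ent_gap hf hQ hr hgp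
        exact ⟨h1, fun N hN ω hω => h1.zero hgp hQ hN hω⟩
      · have hd' : ZDense p f (PB 1) := fun H hH h => hd H hH fun z hz => h z (mem_disc.1 hz)
        have hgp : GenPt f (PB 1) K w y := hy.genPt
          (fun z hz => (hf.2 z (mem_disc.2 hz)).2.1) hd'
        have h1 := Run7.h302.PG.pun_gap hf hQ hr hext hgp
        exact ⟨h1, fun N hN ω hω => h1.zero hgp hQ hN hω⟩
    refine ⟨key.1, key.2, fun hgt => ?_⟩
    obtain ⟨N, hN, ω, hω, hω0⟩ := Run7.h302.PG.logSec_of_gt hgt
    exact hω0 (key.2 N hN ω hω)
  · intro K _ _ w y hy hgt f hf hr hd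
    have hgp : GenPt f univ K w y := hy.genPt (fun z _ => (hf.2.1 z).2.1) hd
    obtain ⟨r, hr'⟩ := Run7.h302.PG.ent_ord hf hQ hq hr hgp
    exact hr' (allFlat_gt (hgp.inv (ent_data hf).1) hQ hgt r)

end Pool.Agent.Results.MP_64ff02_ag.GapSeriesGGL
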